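import Pool.Agent.Run7.h717.HE.Defs

set_option autoImplicit false

universe u v w

open CategoryTheory Limits Abelian

namespace Pool.Agent.H717.HE

section
variable {C : Type u} [Category.{v} C] [Abelian C]
variable {k : Type} [Field k] [Linear k C]

lemma isRadical_of_zero {A B : C} (f : A ⟶ B) (h : ∀ g : B ⟶ A, g = 0) : IsRadical f := by
  intro g
  rw [h g, comp_zero, sub_zero]
  infer_instance

lemma eq_zero_of_isRadical {A : C} (hA : ¬ IsZero A) (hs : ∀ f : A ⟶ A, ∃ c : k, f = c • 𝟙 A)
    (f : A ⟶ A) (hf : IsRadical f) : f = 0 := by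
  obtain ⟨c, rfl⟩ := hs f
  by_cases hc : c = 0
  · rw [hc, zero_smul]
  · exfalso
    have h1 := hf (c⁻¹ • 𝟙 A)
    have h2 : 𝟙 A - (c • 𝟙 A) ≫ (c⁻¹ • 𝟙 A) = 0 := by
      rw [Linear.smul_comp, Linear.comp_smul, Category.comp_id, smul_smul, mul_inv_cancel₀ hc,
        one_smul, sub_self]
    rw [h2] at h1
    apply hA
    rw [IsZero.iff_id_eq_zero]
    have h3 : 𝟙 A = (0 : A ⟶ A) ≫ inv (0 : A ⟶ A) := (IsIso.hom_inv_id (0 : A ⟶ A)).symm
    rw [h3, zero_comp]

lemma indecomposable_of_scalar {A : C} (hA : ¬ IsZero A)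
    (hs : ∀ f : A ⟶ A, ∃ c : k, f = c • 𝟙 A) : Indecomposable A := by
  refine ⟨hA, fun Y Z e => ?_⟩
  obtain ⟨c, hc⟩ := hs (e.hom ≫ biprod.fst ≫ biprod.inl ≫ e.inv)
  have h1 : (biprod.fst : Y ⊞ Z ⟶ Y) ≫ biprod.inl = c • 𝟙 _ := by
    have := congrArg (fun g => e.inv ≫ g ≫ e.hom) hc
    simpa using this
  have h2 : 𝟙 Y = c • 𝟙 Y := by
    have := congrArg (fun g => biprod.inl ≫ g ≫ biprod.fst) h1
    simpa using this
  have h3 : (0 : Z ⟶ Z) = c • 𝟙 Z := by
    have := congrArg (fun g => biprod.inr ≫ g ≫ biprod.snd) h1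
    simpa using this
  by_cases hc0 : c = 0
  · left
    rw [IsZero.iff_id_eq_zero, h2, hc0, zero_smul]
  · right
    rw [IsZero.iff_id_eq_zero]
    have := congrArg (fun g => c⁻¹ • g) h3
    simp only [smul_zero, smul_smul, inv_mul_cancel₀ hc0, one_smul] at this
    exact this.symm

end

namespace Arrows

variable {C : Type u} [Category.{v} C] [Abelian C] [HasExt.{w} C]
variable {k : Type} [Field k] [Linear k C]
variable {ι : Type} {X : ι → C}

/-- In a monomial relation ideal every path which occurs in a relation is a relation. -/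
lemma IsMonomial.single_mem {H : Arrows k X} (hM : H.IsMonomial) (i j : ι)
    (x : Quiver.Path (V := H.Vertex) i j →₀ k) (hx : x ∈ H.rel i j)
    (q : Quiver.Path (V := H.Vertex) i j) (hq : x q ≠ 0) :
    Finsupp.single q (1 : k) ∈ H.rel i j := by
  classical
  obtain ⟨M, -, hM⟩ := hM
  rw [hM i j] at hx
  have key : ∀ y ∈ Submodule.span k {x | ∃ (l m : H.Vertex)
      (p : Quiver.Path (V := H.Vertex) i l) (q : Quiver.Path l m)
      (r : Quiver.Path (V := H.Vertex) m j), q ∈ M l m ∧
      x = Finsupp.single (p.comp (q.comp r)) (1 : k)},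
      ∀ q : Quiver.Path (V := H.Vertex) i j, y q ≠ 0 → Finsupp.single q (1 : k) ∈ H.rel i j := by
    intro y hy
    induction hy using Submodule.span_induction with
    | mem z hz =>
      intro q hq
      have hz' := Submodule.subset_span (R := k) hz
      rw [← hM i j] at hz'
      obtain ⟨l, m, p, s, r, -, rfl⟩ := hz
      rw [Finsupp.single_apply] at hq
      split_ifs at hq with h
      · rw [← h]
        exact hz'
      · exact absurd rfl hq
    | zero => intro q hq; exact absurd rfl hq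
    | add a b _ _ ha hb =>
      intro q hq
      by_cases h : a q = 0
      · apply hb q
        intro h'
        apply hq
        rw [Finsupp.add_apply, h, h', add_zero]
      · exact ha q h
    | smul c a _ ha =>
      intro q hq
      apply ha q
      intro h
      apply hq
      rw [Finsupp.smul_apply, h, smul_zero]
  exact key x hx q hq

/-- The path of two arrows of degree zero. -/
def two (H : Arrows k X) {i l j : ι} (a : H.Arr i l 0) (b : H.Arr l j 0) :
    Quiver.Path (V := H.Vertex) i j :=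
  Quiver.Path.cons (V := H.Vertex) (Quiver.Path.cons (V := H.Vertex) (a := i) (b := i) (c := l)
    Quiver.Path.nil ⟨0, a⟩) ⟨0, b⟩

lemma evalAt_two (H : Arrows k X) {i l j : ι} (a : H.Arr i l 0) (b : H.Arr l j 0)
    (f : X i ⟶ X l) (g : X l ⟶ X j) (ha : H.cls a = Ext.mk₀ f) (hb : H.cls b = Ext.mk₀ g) :
    H.evalAt i j 0 (H.two a b) = Ext.mk₀ (f ≫ g) := by
  unfold evalAt
  rw [dif_pos (show H.pdeg (H.two a b) = 0 from rfl)]
  change ((Ext.mk₀ (𝟙 (X i))).comp (H.cls a) rfl).comp (H.cls b) rfl = _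
  rw [ha, hb]
  change ((Ext.mk₀ (𝟙 (X i))).comp (Ext.mk₀ f) (zero_add 0)).comp (Ext.mk₀ g) (zero_add 0) = _
  rw [Ext.mk₀_comp_mk₀, Ext.mk₀_comp_mk₀, Category.id_comp]

lemma evalAt_one_two (H : Arrows k X) {i l j : ι} (a : H.Arr i l 0) (b : H.Arr l j 0) :
    H.evalAt i j 1 (H.two a b) = 0 := by
  unfold evalAt
  rw [dif_neg]
  change ¬ ((0 : ℕ) = 1)
  decide

/-- Paths through different vertices are different. -/
lemma two_ne (H : Arrows k X) {i l l' j : ι} (a : H.Arr i l 0) (b : H.Arr l j 0)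
    (a' : H.Arr i l' 0) (b' : H.Arr l' j 0) (h : l ≠ l') : H.two a b ≠ H.two a' b' := by
  intro e
  apply h
  unfold two at e
  injection e

/-- If there are no compositions, then a nonzero radical morphism gives an arrow. -/
lemma exists_arrow (H : Arrows k X) {i j : ι} (hsq : ∀ l (f : X i ⟶ X l) (g : X l ⟶ X j),
      IsRadical f → IsRadical g → f ≫ g = 0) (f : X i ⟶ X j) (hf : IsRadical f) (hf0 : f ≠ 0) :
    ∃ (a : H.Arr i j 0) (f' : X i ⟶ X j), f' ≠ 0 ∧ H.cls a = Ext.mk₀ f' := by
  have hbot : radSq k X i j ((0 : Fin 2) : ℕ) = ⊥ := by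
    unfold radSq
    rw [Submodule.span_eq_bot]
    rintro z ⟨l, a, b, h, x, y, hx, hy, rfl⟩
    change a + b = 0 at h
    obtain ⟨rfl, rfl⟩ : a = 0 ∧ b = 0 := ⟨by omega, by omega⟩
    obtain ⟨f, hf, rfl⟩ := hx
    obtain ⟨g, hg, rfl⟩ := hy
    change (Ext.mk₀ f).comp (Ext.mk₀ g) (zero_add 0) = 0
    rw [Ext.mk₀_comp_mk₀, hsq l f g hf hg, Ext.mk₀_zero]
  obtain ⟨y, hy, hxy⟩ := H.span i j 0 (Ext.mk₀ f) ⟨f, hf, rfl⟩
  rw [hbot, Submodule.mem_bot] at hxy
  by_contra hcon
  push Not at hcon
  have h0 : y = 0 := by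
    have : Submodule.span k (Set.range (fun a : H.Arr i j 0 => H.cls a)) = ⊥ := by
      rw [Submodule.span_eq_bot]
      rintro z ⟨a, rfl⟩
      obtain ⟨f', -, hf'⟩ := H.mem a
      by_contra hne
      refine hcon a f' ?_ hf'
      rintro rfl
      apply hne
      change H.cls a = 0
      rw [hf', Ext.mk₀_zero]
    rw [this, Submodule.mem_bot] at hy
    exact hy
  rw [h0, sub_zero] at hxy
  exact hf0 ((Ext.mk₀_eq_zero_iff f).1 hxy)

/-- The arrows exist if the spaces are finite-dimensional and the radical morphisms form a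
subspace. -/
theorem nonempty (hfin : ∀ (i j : ι) (d : Fin 2), FiniteDimensional k (Ext (X i) (X j) (d : ℕ)))
    (hrad : ∀ i j : ι, ∃ W : Submodule k (Ext (X i) (X j) 0),
      (W : Set (Ext (X i) (X j) 0)) = radSet X i j 0) : Nonempty (Arrows k X) := by
  have key : ∀ (i j : ι) (d : Fin 2), ∃ (n : ℕ) (c : Fin n → Ext (X i) (X j) (d : ℕ)),
      (∀ a, c a ∈ radSet X i j (d : ℕ)) ∧
      LinearIndependent k (fun a => (radSq k X i j (d : ℕ)).mkQ (c a)) ∧
      ∀ x ∈ radSet X i j (d : ℕ), ∃ y ∈ Submodule.span k (Set.range c),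
        x - y ∈ radSq k X i j (d : ℕ) := by
    intro i j d
    have := hfin i j d
    obtain ⟨W, hW⟩ : ∃ W : Submodule k (Ext (X i) (X j) (d : ℕ)),
        (W : Set (Ext (X i) (X j) (d : ℕ))) = radSet X i j (d : ℕ) := by
      obtain ⟨d, hd⟩ := d
      interval_cases d
      · exact hrad i j
      · exact ⟨⊤, rfl⟩
    let W' := W.map (radSq k X i j (d : ℕ)).mkQ
    let b := Module.finBasis k W'
    have hb : ∀ a, ∃ c ∈ W, (radSq k X i j (d : ℕ)).mkQ c = (b a : _) := fun a =>
      (Submodule.mem_map).1 (b a).2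
    choose c hcW hc using hb
    refine ⟨Module.finrank k W', c, fun a => ?_, ?_, ?_⟩
    · rw [← hW]
      exact hcW a
    · have : (fun a => (radSq k X i j (d : ℕ)).mkQ (c a)) = fun a => W'.subtype (b a) := by
        funext a
        exact hc a
      rw [this]
      exact b.linearIndependent.map' W'.subtype (Submodule.ker_subtype _)
    · intro x hx
      rw [← hW] at hx
      let x' : W' := ⟨(radSq k X i j (d : ℕ)).mkQ x, Submodule.mem_map_of_mem hx⟩
      refine ⟨∑ a, b.repr x' a • c a, ?_, ?_⟩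
      · exact Submodule.sum_mem _ fun a _ => Submodule.smul_mem _ _
          (Submodule.subset_span ⟨a, rfl⟩)
      · have h1 : (radSq k X i j (d : ℕ)).mkQ (x - ∑ a, b.repr x' a • c a) = 0 := by
          rw [map_sub, map_sum]
          simp only [map_smul, hc]
          have h2 := congrArg W'.subtype (b.sum_repr x')
          rw [map_sum] at h2
          simp only [map_smul] at h2
          rw [sub_eq_zero]
          exact h2.symm
        rwa [Submodule.mkQ_apply, Submodule.Quotient.mk_eq_zero] at h1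
  choose n c h1 h2 h3 using key
  exact ⟨{ Arr := fun i j d => Fin (n i j d)
           cls := fun {i j d} a => c i j d a
           mem := fun {i j d} a => h1 i j d a
           indep := h2
           span := h3 }⟩

/-- A commutative square of morphisms between members of the family, with one-dimensional space
of morphisms from its source to its target, gives a relation which is not monomial. -/
theorem not_isMonomial (H : Arrows k X) {i l l' j : ι} (hl : l ≠ l')
    (a : H.Arr i l 0) (b : H.Arr l j 0) (a' : H.Arr i l' 0) (b' : H.Arr l' j 0)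
    (f : X i ⟶ X l) (g : X l ⟶ X j) (f' : X i ⟶ X l') (g' : X l' ⟶ X j)
    (ha : H.cls a = Ext.mk₀ f) (hb : H.cls b = Ext.mk₀ g)
    (ha' : H.cls a' = Ext.mk₀ f') (hb' : H.cls b' = Ext.mk₀ g')
    (h0 : f' ≫ g' ≠ 0) (hc : ∃ c : k, f' ≫ g' = c • (f ≫ g)) : ¬ H.IsMonomial := by
  intro hM
  obtain ⟨c, hc⟩ := hc
  classical
  have hmem : (Finsupp.single (H.two a' b') (1 : k) - Finsupp.single (H.two a b) c) ∈
      H.rel i j := by
    refine Submodule.mem_inf.2 ⟨?_, ?_⟩
    · rw [LinearMap.mem_ker, map_sub, Finsupp.linearCombination_single,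
        Finsupp.linearCombination_single, H.evalAt_two a b f g ha hb,
        H.evalAt_two a' b' f' g' ha' hb', one_smul, hc, Ext.mk₀_smul, sub_self]
    · rw [LinearMap.mem_ker, map_sub, Finsupp.linearCombination_single,
        Finsupp.linearCombination_single, H.evalAt_one_two, H.evalAt_one_two, smul_zero,
        smul_zero, sub_self]
  have h1 := hM.single_mem i j _ hmem (H.two a' b') (by
    rw [Finsupp.sub_apply, Finsupp.single_eq_same, Finsupp.single_apply, if_neg, sub_zero]
    · exact one_ne_zero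
    · exact H.two_ne a b a' b' hl)
  have h2 := (Submodule.mem_inf.1 h1).1
  rw [LinearMap.mem_ker, Finsupp.linearCombination_single, H.evalAt_two a' b' f' g' ha' hb',
    one_smul, Ext.mk₀_eq_zero_iff] at h2
  exact h0 h2

end Arrows

end Pool.Agent.H717.HE
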