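import Pool.Agent.Run7.h717.HE.Proj

/-!
# The quiver `a → o ← b`, `o → c` and four of its exceptional modules
-/

set_option autoImplicit false

open CategoryTheory Limits Abelian

namespace Pool.Agent.H717.HE

/-- The vertices. -/
inductive V4 : Type
  | a | b | o | c
  deriving DecidableEq

instance : Fintype V4 where
  elems := {V4.a, V4.b, V4.o, V4.c}
  complete v := by cases v <;> simp

/-- The arrows `a → o`, `b → o` and `o → c`. -/
inductive Arr4 : V4 → V4 → Type
  | ao : Arr4 V4.a V4.o
  | bo : Arr4 V4.b V4.o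
  | oc : Arr4 V4.o V4.c

instance : Quiver V4 where
  Hom := Arr4

/-- The height of a vertex. -/
def ht : V4 → ℕ
  | .a => 0
  | .b => 0
  | .o => 1
  | .c => 2

lemma arr_cases {u v : V4} (e : u ⟶ v) :
    (u = V4.a ∧ v = V4.o) ∨ (u = V4.b ∧ v = V4.o) ∨ (u = V4.o ∧ v = V4.c) := by
  change Arr4 u v at e
  cases e
  · exact Or.inl ⟨rfl, rfl⟩
  · exact Or.inr (Or.inl ⟨rfl, rfl⟩)
  · exact Or.inr (Or.inr ⟨rfl, rfl⟩)

lemma ht_arr {u v : V4} (e : u ⟶ v) : ht v = ht u + 1 := by
  rcases arr_cases e with ⟨rfl, rfl⟩ | ⟨rfl, rfl⟩ | ⟨rfl, rfl⟩ <;> rfl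

lemma ht_path {u v : V4} (p : Quiver.Path u v) : ht v = ht u + p.length := by
  induction p with
  | nil => rfl
  | cons p e ih =>
    rw [ht_arr e, ih, Quiver.Path.length_cons]
    omega

lemma acyclic (v : V4) (p : Quiver.Path v v) : p = Quiver.Path.nil := by
  have h := ht_path p
  apply Quiver.Path.eq_nil_of_length_zero p
  omega

lemma no_path_ab (p : Quiver.Path V4.a V4.b) : False := by
  have h := ht_path p
  have h1 : p.length = 0 := by change 0 = 0 + p.length at h; omega
  exact V4.noConfusion (Quiver.Path.eq_of_length_zero p h1)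

lemma no_path_ba (p : Quiver.Path V4.b V4.a) : False := by
  have h := ht_path p
  have h1 : p.length = 0 := by change 0 = 0 + p.length at h; omega
  exact V4.noConfusion (Quiver.Path.eq_of_length_zero p h1)

lemma no_path {u v : V4} (h : ht v < ht u) (p : Quiver.Path u v) : False := by
  have := ht_path p
  omega

lemma arr_sub {u v : V4} (e f : u ⟶ v) : e = f := by
  change Arr4 u v at e f
  cases e <;> cases f <;> rfl

lemma no_both {u : V4} (p : Quiver.Path u V4.a) (q : Quiver.Path u V4.b) : False := by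
  have h := ht_path p
  have h1 : p.length = 0 := by change 0 = ht u + p.length at h; omega
  have h2 := Quiver.Path.eq_of_length_zero p h1
  subst h2
  exact no_path_ab q

lemma path_sub {u v : V4} (p q : Quiver.Path u v) : p = q := by
  induction p with
  | nil => exact (acyclic _ q).symm
  | @cons v w p e ih =>
    cases q with
    | nil =>
      have := ht_path p
      have h2 := ht_arr e
      omega
    | @cons v' _ q e' =>
      have hv : v = v' := by
        rcases arr_cases e with ⟨h1, h2⟩ | ⟨h1, h2⟩ | ⟨h1, h2⟩ <;>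
          rcases arr_cases e' with ⟨h3, h4⟩ | ⟨h3, h4⟩ | ⟨h3, h4⟩
        · rw [h1, h3]
        · subst h1 h3
          exact (no_both p q).elim
        · rw [h2] at h4; exact V4.noConfusion h4
        · subst h1 h3
          exact (no_both q p).elim
        · rw [h1, h3]
        · rw [h2] at h4; exact V4.noConfusion h4
        · rw [h2] at h4; exact V4.noConfusion h4
        · rw [h2] at h4; exact V4.noConfusion h4
        · rw [h1, h3]
      subst hv
      rw [ih q, arr_sub e e']

/-- The path category of the quiver. -/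
abbrev J4 : Type := Paths V4

/-- The vertices as objects of the path category. -/
def va : J4 := V4.a
/-- The vertex `b`. -/
def vb : J4 := V4.b
/-- The vertex `o`. -/
def vo : J4 := V4.o
/-- The vertex `c`. -/
def vc : J4 := V4.c

/-- The path `a → o`. -/
def pao : va ⟶ vo := Quiver.Path.cons Quiver.Path.nil Arr4.ao
/-- The path `b → o`. -/
def pbo : vb ⟶ vo := Quiver.Path.cons Quiver.Path.nil Arr4.bo
/-- The path `o → c`. -/
def poc : vo ⟶ vc := Quiver.Path.cons Quiver.Path.nil Arr4.oc
/-- The path `a → c`. -/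
def pac : va ⟶ vc := pao ≫ poc
/-- The path `b → c`. -/
def pbc : vb ⟶ vc := pbo ≫ poc

lemma hom_sub {i j : J4} (p q : i ⟶ j) : p = q := path_sub p q

variable (k : Type) [Field k]

/-- The constant representation, which is the injective hull of the simple module at `c`. -/
noncomputable def K : J4 ⥤ ModuleCat.{0} k :=
  (Functor.const J4).obj (ModuleCat.of k k)

/-- The four modules. -/
noncomputable def X4 : Fin 4 → (J4 ⥤ ModuleCat.{0} k)
  | 0 => P k vc
  | 1 => P k va
  | 2 => P k vb
  | 3 => K k

variable {k}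

/-- The morphism `P i → K` sending the generator to one. -/
noncomputable def toK (i : J4) : P k i ⟶ K k := toP (Y := K k) (i := i) (1 : k)

lemma toK_gen (i : J4) : ((toK i).app i).hom (gen i) = (1 : k) := toP_gen _

lemma P_K (i : J4) (f : P k i ⟶ K k) : ∃ c : k, f = c • toK i := by
  refine ⟨(f.app i).hom (gen i), P_ext ?_⟩
  change _ = ((f.app i).hom (gen i) : k) • ((toK i).app i).hom (gen i)
  rw [toK_gen]
  exact (mul_one (M := k) _).symm

/-- The value at a vertex of an endomorphism, or morphism, from `K`. -/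
lemma K_nat {Y : J4 ⥤ ModuleCat.{0} k} (f : K k ⟶ Y) {i j : J4} (p : i ⟶ j) :
    (Y.map p).hom ((f.app i).hom (1 : k)) = (f.app j).hom (1 : k) := by
  have := congrArg (fun e => e.hom (1 : k)) (f.naturality p)
  exact this.symm

lemma K_ext {Y : J4 ⥤ ModuleCat.{0} k} {f g : K k ⟶ Y}
    (h : ∀ i, (f.app i).hom (1 : k) = (g.app i).hom (1 : k)) : f = g := by
  apply NatTrans.ext
  funext i
  apply ModuleCat.hom_ext
  apply LinearMap.ext_ring
  exact h i

lemma K_scalar (f : K k ⟶ K k) : ∃ c : k, f = c • 𝟙 (K k) := by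
  have hao : (f.app va).hom (1 : k) = (f.app vo).hom (1 : k) := K_nat f pao
  have hbo : (f.app vb).hom (1 : k) = (f.app vo).hom (1 : k) := K_nat f pbo
  have hoc : (f.app vo).hom (1 : k) = (f.app vc).hom (1 : k) := K_nat f poc
  refine ⟨(f.app vo).hom (1 : k), K_ext fun i => ?_⟩
  have key : (f.app i).hom (1 : k) = (f.app vo).hom (1 : k) := by
    cases i with
    | a => exact hao
    | b => exact hbo
    | o => rfl
    | c => exact hoc.symm
  rw [key]
  exact (mul_one (M := k) _).symm

lemma K_not_isZero : ¬ IsZero (K k) := by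
  intro h
  have h1 := (IsZero.iff_id_eq_zero _).1 h
  have h2 := congrArg (fun f : K k ⟶ K k => (f.app vo).hom (1 : k)) h1
  exact one_ne_zero (α := k) h2

lemma P_map_inj {i j l : J4} (p : j ⟶ l) (x : ((P k i).obj j : ModuleCat k))
    (h : ((P k i).map p).hom x = 0) : x = 0 := by
  have h1 : Finsupp.lmapDomain k k (fun q : i ⟶ j => q ≫ p) x = 0 := h
  rw [Finsupp.lmapDomain_apply] at h1
  have h2 : Function.Injective (fun q : i ⟶ j => q ≫ p) := fun q q' _ => hom_sub q q'
  have h3 := Finsupp.mapDomain_injective (M := k) h2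
  apply h3
  rw [h1]
  exact (Finsupp.mapDomain_zero).symm

/-- There are no morphisms from `K` to a projective `P i` which vanishes at `a` or at `b`. -/
lemma K_P_zero (i : J4) (h : IsEmpty (i ⟶ va) ∨ IsEmpty (i ⟶ vb)) (f : K k ⟶ P k i) : f = 0 := by
  have ho : (f.app vo).hom (1 : k) = 0 := by
    rcases h with h | h
    · have h1 : (f.app va).hom (1 : k) = 0 := by
        have : Subsingleton ((i ⟶ va) →₀ k) := inferInstance
        exact this.elim _ _
      rw [← K_nat f pao, h1, map_zero]
    · have h1 : (f.app vb).hom (1 : k) = 0 := by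
        have : Subsingleton ((i ⟶ vb) →₀ k) := inferInstance
        exact this.elim _ _
      rw [← K_nat f pbo, h1, map_zero]
  have hc : (f.app vc).hom (1 : k) = 0 := by rw [← K_nat f poc, ho, map_zero]
  have ha : (f.app va).hom (1 : k) = 0 := P_map_inj pao _ (by rw [K_nat f pao, ho])
  have hb : (f.app vb).hom (1 : k) = 0 := P_map_inj pbo _ (by rw [K_nat f pbo, ho])
  apply K_ext
  intro i
  cases i with
  | a => exact ha
  | b => exact hb
  | o => exact ho
  | c => exact hc

lemma empty_ab : IsEmpty (va ⟶ vb) := ⟨no_path_ab⟩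
lemma empty_ba : IsEmpty (vb ⟶ va) := ⟨no_path_ba⟩
lemma empty_ca : IsEmpty (vc ⟶ va) := ⟨fun p => no_path (u := V4.c) (v := V4.a) (by decide) p⟩
lemma empty_cb : IsEmpty (vc ⟶ vb) := ⟨fun p => no_path (u := V4.c) (v := V4.b) (by decide) p⟩

/-- All morphisms in the wrong direction vanish. -/
lemma hom_zero (i j : Fin 4) (h : j < i) (f : X4 k i ⟶ X4 k j) : f = 0 := by
  fin_cases i <;> fin_cases j <;> first | (exact absurd h (by decide)) | skip
  · exact P_hom_zero empty_ca f
  · exact P_hom_zero empty_cb f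
  · exact P_hom_zero empty_ab f
  · exact K_P_zero vc (Or.inl empty_ca) f
  · exact K_P_zero va (Or.inr empty_ab) f
  · exact K_P_zero vb (Or.inl empty_ba) f

lemma hom_zero12 (f : X4 k 1 ⟶ X4 k 2) : f = 0 := P_hom_zero empty_ba f

lemma scalar (i : Fin 4) (f : X4 k i ⟶ X4 k i) : ∃ c : k, f = c • 𝟙 (X4 k i) := by
  fin_cases i
  · exact P_scalar vc (fun q => hom_sub _ _) f
  · exact P_scalar va (fun q => hom_sub _ _) f
  · exact P_scalar vb (fun q => hom_sub _ _) f
  · exact K_scalar f

lemma not_isZero (i : Fin 4) : ¬ IsZero (X4 k i) := by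
  fin_cases i
  · exact P_not_isZero vc
  · exact P_not_isZero va
  · exact P_not_isZero vb
  · exact K_not_isZero

end Pool.Agent.H717.HE
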