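import Mathlib

/-!
# Exceptional collections and their Hom-Ext quivers: definitions

`k` is a field and `C` is a `k`-linear abelian category, for instance the category of
representations of a quiver `Q` over `k`, that is, of `k Q`-modules.  The morphisms of the derived
category between stalk complexes are the groups `Ext`.
-/

set_option autoImplicit false

universe u v w

open CategoryTheory Limits Abelian

namespace Pool.Agent.H717.HE

section Defs

variable {C : Type u} [Category.{v} C] [Abelian C] [HasExt.{w} C]

/-- An exceptional object: indecomposable and without self-extensions. -/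
def IsExceptional (E : C) : Prop :=
  Indecomposable E ∧ ∀ x : Ext E E 1, x = 0

/-- A family of objects which is an exceptional collection: its members are exceptional, and for
some ordering of the members there are no nonzero morphisms and no nonzero extensions from a later
member to an earlier one. -/
def IsExceptionalCollection {ι : Type} [Fintype ι] (X : ι → C) : Prop :=
  (∀ i, IsExceptional (X i)) ∧
    ∃ σ : ι ≃ Fin (Fintype.card ι), ∀ i j, σ j < σ i →
      (∀ f : X i ⟶ X j, f = 0) ∧ ∀ x : Ext (X i) (X j) 1, x = 0

/-- A radical morphism: `1 - f g` is invertible for all `g`. Between indecomposable objects with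
local endomorphism rings these are the morphisms which are not isomorphisms. -/
def IsRadical {A B : C} (f : A ⟶ B) : Prop := ∀ g : B ⟶ A, IsIso (𝟙 A - f ≫ g)

/-- The radical part of the morphisms, respectively all extensions, between members of a
family. -/
def radSet {ι : Type} (X : ι → C) (i j : ι) : (d : ℕ) → Set (Ext (X i) (X j) d)
  | 0 => {x | ∃ f : X i ⟶ X j, IsRadical f ∧ x = Ext.mk₀ f}
  | (_ + 1) => Set.univ

variable (k : Type) [Field k] [Linear k C]

/-- The span of the compositions of two radical morphisms or extensions through members of the
family. -/
noncomputable def radSq {ι : Type} (X : ι → C) (i j : ι) (d : ℕ) : Submodule k (Ext (X i) (X j) d) :=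
  Submodule.span k {z | ∃ (l : ι) (a b : ℕ) (h : a + b = d) (x : Ext (X i) (X l) a)
    (y : Ext (X l) (X j) b), x ∈ radSet X i l a ∧ y ∈ radSet X l j b ∧ z = x.comp y h}

/-- A choice of the arrows of the Hom-Ext quiver of a family of objects. The arrows from `X i` to
`X j` of degree `0` are radical morphisms, the arrows of degree `1` are extensions, and in both
degrees they form a basis modulo the compositions of radical morphisms and extensions through
members of the family. -/
structure Arrows {ι : Type} (X : ι → C) where
  /-- The arrows, by their degree. -/
  Arr : ι → ι → Fin 2 → Type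
  /-- The morphism or extension represented by an arrow. -/
  cls : ∀ {i j : ι} {d : Fin 2}, Arr i j d → Ext (X i) (X j) d
  mem : ∀ {i j : ι} {d : Fin 2} (a : Arr i j d), cls a ∈ radSet X i j d
  indep : ∀ (i j : ι) (d : Fin 2),
    LinearIndependent k (fun a : Arr i j d => (radSq k X i j d).mkQ (cls a))
  span : ∀ (i j : ι) (d : Fin 2), ∀ x ∈ radSet X i j (d : ℕ),
    ∃ y ∈ Submodule.span k (Set.range (fun a : Arr i j d => cls a)), x - y ∈ radSq k X i j d

namespace Arrows

variable {k} {ι : Type} {X : ι → C}

/-- The vertices of the Hom-Ext quiver: the members of the family. -/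
def Vertex (_ : Arrows k X) : Type := ι

/-- The Hom-Ext quiver. -/
instance (H : Arrows k X) : Quiver H.Vertex where
  Hom i j := Σ d : Fin 2, H.Arr i j d

/-- The degree of a path: the number of its arrows which are extensions. -/
def pdeg (H : Arrows k X) {i : H.Vertex} : {j : H.Vertex} → Quiver.Path i j → ℕ
  | _, .nil => 0
  | _, .cons p a => pdeg H p + (a.1 : ℕ)

/-- The composition of the morphisms and extensions along a path. -/
noncomputable def eval (H : Arrows k X) {i : ι} :
    {j : ι} → (p : Quiver.Path (V := H.Vertex) i j) → Ext (X i) (X j) (H.pdeg p)
  | _, .nil => Ext.mk₀ (𝟙 (X i))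
  | _, .cons p a => (eval H p).comp (H.cls a.2) rfl

open Classical in
/-- The component of degree `d` of the composition along a path. -/
noncomputable def evalAt (H : Arrows k X) (i j : ι) (d : ℕ)
    (p : Quiver.Path (V := H.Vertex) i j) : Ext (X i) (X j) d :=
  if h : H.pdeg p = d then h ▸ H.eval p else 0

/-- The relations from `i` to `j`: the linear combinations of paths whose components of degree `0`
(morphisms from `X i` to `X j`) and of degree `1` (morphisms from `X i` to the shift of `X j`)
vanish. There is no condition on the paths of degree at least two. -/
noncomputable def rel (H : Arrows k X) (i j : ι) :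
    Submodule k (Quiver.Path (V := H.Vertex) i j →₀ k) :=
  LinearMap.ker (Finsupp.linearCombination k (H.evalAt i j 0)) ⊓
    LinearMap.ker (Finsupp.linearCombination k (H.evalAt i j 1))

/-- The relation ideal is generated by a set `M` of monomial relations, that is, of paths of
length at least two: the relations from `i` to `j` are the linear combinations of the paths
`p q r` with `q` in `M`. -/
def IsMonomial (H : Arrows k X) : Prop :=
  ∃ M : ∀ i j : H.Vertex, Set (Quiver.Path i j),
    (∀ i j, ∀ q ∈ M i j, 2 ≤ q.length) ∧
    ∀ i j : ι, H.rel i j = Submodule.span k {x | ∃ (l m : H.Vertex)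
      (p : Quiver.Path (V := H.Vertex) i l) (q : Quiver.Path l m)
      (r : Quiver.Path (V := H.Vertex) m j), q ∈ M l m ∧
      x = Finsupp.single (p.comp (q.comp r)) (1 : k)}

end Arrows

end Defs

/-- The category of representations of a quiver over a field, that is, of modules over the path
algebra. -/
abbrev Rep (k : Type) [Field k] (V : Type) [Quiver.{0} V] : Type 1 := Paths V ⥤ ModuleCat.{0} k

instance (k : Type) [Field k] (V : Type) [Quiver.{0} V] : HasExt.{1} (Rep k V) :=
  HasExt.standard _

end Pool.Agent.H717.HE
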