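import Pool.Agent.Run7.h717.HE.D4

/-!
# Vanishing of extensions
-/

set_option autoImplicit false

universe w

open CategoryTheory Limits Abelian

namespace Pool.Agent.H717.HE

variable {k : Type} [Field k]

/-- The projective cover of `K`. -/
noncomputable abbrev U (k : Type) [Field k] : J4 ⥤ ModuleCat.{0} k := P k va ⊞ P k vb

/-- The cover. -/
noncomputable def cov (k : Type) [Field k] : U k ⟶ K k := biprod.desc (toK va) (toK vb)

lemma toK_bas {i j : J4} (p : i ⟶ j) : ((toK (k := k) i).app j).hom (bas p) = (1 : k) := toP_bas _ p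

lemma P_elt {i j : J4} (p : i ⟶ j) (x : ((P k i).obj j : ModuleCat k)) : ∃ c : k, x = c • bas p := by
  let x' : (i ⟶ j) →₀ k := x
  refine ⟨x' p, ?_⟩
  change x' = x' p • Finsupp.single p (1 : k)
  ext q
  rw [hom_sub q p, Finsupp.smul_apply, Finsupp.single_eq_same, smul_eq_mul, mul_one]

lemma P_elt_zero {i j : J4} (h : IsEmpty (i ⟶ j)) (x : ((P k i).obj j : ModuleCat k)) : x = 0 := by
  have : Subsingleton ((i ⟶ j) →₀ k) := inferInstance
  exact this.elim _ _

lemma U_elt (v : J4) (u : (U k).obj v) :
    u = ((biprod.inl : P k va ⟶ U k).app v).hom (((biprod.fst : U k ⟶ P k va).app v).hom u) +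
      ((biprod.inr : P k vb ⟶ U k).app v).hom (((biprod.snd : U k ⟶ P k vb).app v).hom u) := by
  have h := congrArg (fun e : U k ⟶ U k => (e.app v).hom u)
    (biprod.total (X := P k va) (Y := P k vb))
  exact h.symm

lemma cov_inl (v : J4) (x : (P k va).obj v) :
    ((cov k).app v).hom (((biprod.inl : P k va ⟶ U k).app v).hom x) =
      ((toK va).app v).hom x := by
  have h := congrArg (fun e : P k va ⟶ K k => (e.app v).hom x)
    (biprod.inl_desc (toK (k := k) va) (toK vb))
  exact h

lemma cov_inr (v : J4) (x : (P k vb).obj v) :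
    ((cov k).app v).hom (((biprod.inr : P k vb ⟶ U k).app v).hom x) =
      ((toK vb).app v).hom x := by
  have h := congrArg (fun e : P k vb ⟶ K k => (e.app v).hom x)
    (biprod.inr_desc (toK (k := k) va) (toK vb))
  exact h

instance cov_epi : Epi (cov k) := by
  have : ∀ v, Epi ((cov k).app v) := by
    intro v
    rw [ModuleCat.epi_iff_surjective]
    intro y
    have key : (∃ p : va ⟶ v, True) ∨ (∃ p : vb ⟶ v, True) := by
      cases v with
      | a => exact Or.inl ⟨𝟙 va, trivial⟩
      | b => exact Or.inr ⟨𝟙 vb, trivial⟩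
      | o => exact Or.inl ⟨pao, trivial⟩
      | c => exact Or.inl ⟨pac, trivial⟩
    rcases key with ⟨p, -⟩ | ⟨p, -⟩
    · refine ⟨((biprod.inl : P k va ⟶ U k).app v).hom ((y : k) • bas p), ?_⟩
      change ((cov k).app v).hom (((biprod.inl : P k va ⟶ U k).app v).hom ((y : k) • bas p)) = y
      rw [cov_inl, map_smul, toK_bas]
      exact mul_one (M := k) y
    · refine ⟨((biprod.inr : P k vb ⟶ U k).app v).hom ((y : k) • bas p), ?_⟩
      change ((cov k).app v).hom (((biprod.inr : P k vb ⟶ U k).app v).hom ((y : k) • bas p)) = y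
      rw [cov_inr, map_smul, toK_bas]
      exact mul_one (M := k) y
  exact NatTrans.epi_of_epi_app _

/-- The difference of the two basis elements of `U` at `o`. -/
noncomputable def dif (k : Type) [Field k] : (U k).obj vo :=
  ((biprod.inl : P k va ⟶ U k).app vo).hom (bas pao) -
    ((biprod.inr : P k vb ⟶ U k).app vo).hom (bas pbo)

lemma cov_dif : ((cov k).app vo).hom (dif k) = 0 := by
  unfold dif
  rw [map_sub, cov_inl, cov_inr, toK_bas, toK_bas, sub_self]

lemma map_inl (v w : J4) (p : v ⟶ w) (x : (P k va).obj v) :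
    ((U k).map p).hom (((biprod.inl : P k va ⟶ U k).app v).hom x) =
      ((biprod.inl : P k va ⟶ U k).app w).hom (((P k va).map p).hom x) := by
  have h := congrArg (fun e => e.hom x) ((biprod.inl : P k va ⟶ U k).naturality p)
  exact h.symm

lemma map_inr (v w : J4) (p : v ⟶ w) (x : (P k vb).obj v) :
    ((U k).map p).hom (((biprod.inr : P k vb ⟶ U k).app v).hom x) =
      ((biprod.inr : P k vb ⟶ U k).app w).hom (((P k vb).map p).hom x) := by
  have h := congrArg (fun e => e.hom x) ((biprod.inr : P k vb ⟶ U k).naturality p)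
  exact h.symm

/-- The kernel of the cover is generated by `dif`. -/
lemma ker_cov (v : J4) (u : (U k).obj v) (h : ((cov k).app v).hom u = 0) :
    u = 0 ∨ ∃ (q : vo ⟶ v) (c : k), u = c • ((U k).map q).hom (dif k) := by
  rw [U_elt v u] at h
  rw [map_add, cov_inl, cov_inr] at h
  cases v with
  | a =>
    left
    have h2 := P_elt_zero empty_ba (((biprod.snd : U k ⟶ P k vb).app va).hom u)
    obtain ⟨s, hs⟩ := P_elt (𝟙 va) (((biprod.fst : U k ⟶ P k va).app va).hom u)
    change ((toK va).app va).hom (((biprod.fst : U k ⟶ P k va).app va).hom u) +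
      ((toK vb).app va).hom (((biprod.snd : U k ⟶ P k vb).app va).hom u) = 0 at h
    rw [h2, hs, map_zero, add_zero, map_smul, toK_bas] at h
    have h3 : s = 0 := by
      have : s * 1 = 0 := h
      rwa [mul_one] at this
    have h4 := U_elt va u
    rw [h2, hs, h3, zero_smul, map_zero, map_zero, add_zero] at h4
    exact h4
  | b =>
    left
    have h2 := P_elt_zero empty_ab (((biprod.fst : U k ⟶ P k va).app vb).hom u)
    obtain ⟨s, hs⟩ := P_elt (𝟙 vb) (((biprod.snd : U k ⟶ P k vb).app vb).hom u)
    change ((toK va).app vb).hom (((biprod.fst : U k ⟶ P k va).app vb).hom u) +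
      ((toK vb).app vb).hom (((biprod.snd : U k ⟶ P k vb).app vb).hom u) = 0 at h
    rw [h2, hs, map_zero, zero_add, map_smul, toK_bas] at h
    have h3 : s = 0 := by
      have : s * 1 = 0 := h
      rwa [mul_one] at this
    have h4 := U_elt vb u
    rw [h2, hs, h3, zero_smul, map_zero, map_zero, add_zero] at h4
    exact h4
  | o =>
    right
    obtain ⟨s, hs⟩ := P_elt pao (((biprod.fst : U k ⟶ P k va).app vo).hom u)
    obtain ⟨t, ht⟩ := P_elt pbo (((biprod.snd : U k ⟶ P k vb).app vo).hom u)
    change ((toK va).app vo).hom (((biprod.fst : U k ⟶ P k va).app vo).hom u) +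
      ((toK vb).app vo).hom (((biprod.snd : U k ⟶ P k vb).app vo).hom u) = 0 at h
    rw [hs, ht, map_smul, map_smul, toK_bas, toK_bas] at h
    have h3 : t = -s := by
      have : s * 1 + t * 1 = 0 := h
      linear_combination this
    refine ⟨𝟙 vo, s, ?_⟩
    have h4 := U_elt vo u
    rw [hs, ht, h3] at h4
    have h5 : ((U k).map (𝟙 vo)).hom (dif k) = dif k := by
      rw [(U k).map_id]
      rfl
    change u = s • ((U k).map (𝟙 vo)).hom (dif k)
    rw [h5]
    unfold dif
    rw [h4, smul_sub, map_smul, map_smul, neg_smul, sub_eq_add_neg]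
  | c =>
    right
    obtain ⟨s, hs⟩ := P_elt pac (((biprod.fst : U k ⟶ P k va).app vc).hom u)
    obtain ⟨t, ht⟩ := P_elt pbc (((biprod.snd : U k ⟶ P k vb).app vc).hom u)
    change ((toK va).app vc).hom (((biprod.fst : U k ⟶ P k va).app vc).hom u) +
      ((toK vb).app vc).hom (((biprod.snd : U k ⟶ P k vb).app vc).hom u) = 0 at h
    rw [hs, ht, map_smul, map_smul, toK_bas, toK_bas] at h
    have h3 : t = -s := by
      have : s * 1 + t * 1 = 0 := h
      linear_combination this
    refine ⟨poc, s, ?_⟩
    have h4 := U_elt vc u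
    rw [hs, ht, h3] at h4
    change u = s • ((U k).map poc).hom (dif k)
    unfold dif
    rw [h4, map_sub, map_inl, map_inr, map_bas, map_bas, smul_sub, map_smul, map_smul, neg_smul,
      sub_eq_add_neg]
    rfl

/-- If every element at `o` is a sum of elements coming from `a` and `b`, then all extensions of
`K` by `Y` vanish. -/
theorem ext_K [HasExt.{w} (J4 ⥤ ModuleCat.{0} k)] (Y : J4 ⥤ ModuleCat.{0} k)
    (hY : ∀ y : Y.obj vo, ∃ (ya : Y.obj va) (yb : Y.obj vb),
      (Y.map pao).hom ya + (Y.map pbo).hom yb = y) (x : Ext (K k) Y 1) : x = 0 := by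
  let S : ShortComplex (J4 ⥤ ModuleCat.{0} k) :=
    ShortComplex.mk (kernel.ι (cov k)) (cov k) (kernel.condition _)
  have hS : S.ShortExact :=
    { exact := ShortComplex.exact_of_f_is_kernel _ (kernelIsKernel (cov k))
      mono_f := inferInstance
      epi_g := cov_epi }
  have hproj : Projective (U k) := inferInstance
  have h1 : (Ext.mk₀ S.g).comp x (zero_add 1) = 0 := by
    have : Projective S.X₂ := hproj
    exact Ext.eq_zero_of_projective _
  obtain ⟨x₁, hx₁⟩ := Ext.contravariant_sequence_exact₃ hS Y x h1 (n₀ := 0) rfl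
  obtain ⟨h, rfl⟩ : ∃ h : S.X₁ ⟶ Y, Ext.mk₀ h = x₁ := (Ext.mk₀_bijective _ _).2 x₁
  -- the generator of the kernel
  have hker : ∀ (v : J4) (u : (U k).obj v), ((cov k).app v).hom u = 0 →
      ∃ z : S.X₁.obj v, (S.f.app v).hom z = u := by
    intro v u hu
    have h2 : (S.map ((evaluation J4 (ModuleCat.{0} k)).obj v)).Exact :=
      hS.exact.map ((evaluation J4 (ModuleCat.{0} k)).obj v)
    rw [ShortComplex.moduleCat_exact_iff] at h2
    exact h2 u hu
  obtain ⟨z, hz⟩ := hker vo (dif k) cov_dif
  obtain ⟨ya, yb, hy⟩ := hY ((h.app vo).hom z)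
  let h' : U k ⟶ Y := biprod.desc (toP ya) (toP (-yb))
  have h'inl : ∀ (v : J4) (x : (P k va).obj v),
      (h'.app v).hom (((biprod.inl : P k va ⟶ U k).app v).hom x) = ((toP ya).app v).hom x := by
    intro v x
    have h := congrArg (fun e : P k va ⟶ Y => (e.app v).hom x)
      (biprod.inl_desc (toP (k := k) ya) (toP (-yb)))
    exact h
  have h'inr : ∀ (v : J4) (x : (P k vb).obj v),
      (h'.app v).hom (((biprod.inr : P k vb ⟶ U k).app v).hom x) = ((toP (-yb)).app v).hom x := by
    intro v x
    have h := congrArg (fun e : P k vb ⟶ Y => (e.app v).hom x)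
      (biprod.inr_desc (toP (k := k) ya) (toP (-yb)))
    exact h
  have h'dif : (h'.app vo).hom (dif k) = (h.app vo).hom z := by
    unfold dif
    rw [map_sub, h'inl, h'inr, toP_bas, toP_bas, map_neg, sub_neg_eq_add, hy]
  have hfac : h = S.f ≫ h' := by
    apply NatTrans.ext
    funext v
    apply ModuleCat.hom_ext
    apply LinearMap.ext
    intro t
    have hmono : Function.Injective (S.f.app v).hom := by
      have : Mono (S.f.app v) := inferInstance
      exact (ModuleCat.mono_iff_injective _).1 this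
    have hcov : ((cov k).app v).hom ((S.f.app v).hom t) = 0 := by
      have := congrArg (fun e : S.X₁ ⟶ K k => (e.app v).hom t) S.zero
      exact this
    rcases ker_cov v _ hcov with h0 | ⟨q, c, h0⟩
    · have ht : t = 0 := hmono (by rw [h0, map_zero])
      rw [ht, map_zero, map_zero]
    · have ht : t = c • (S.X₁.map q).hom z := by
        apply hmono
        rw [h0, map_smul]
        congr 1
        have hn := congrArg (fun e => e.hom z) (S.f.naturality q)
        change (S.f.app v).hom ((S.X₁.map q).hom z) = ((U k).map q).hom ((S.f.app vo).hom z) at hn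
        rw [hn, hz]
      have hn : (h.app v).hom ((S.X₁.map q).hom z) = (Y.map q).hom ((h.app vo).hom z) :=
        congrArg (fun e => e.hom z) (h.naturality q)
      have hn' : (h'.app v).hom (((U k).map q).hom (dif k)) =
          (Y.map q).hom ((h'.app vo).hom (dif k)) :=
        congrArg (fun e => e.hom (dif k)) (h'.naturality q)
      change (h.app v).hom t = (h'.app v).hom ((S.f.app v).hom t)
      rw [h0, map_smul, hn', h'dif, ht, map_smul, hn]
  have h3 : x = hS.extClass.comp (Ext.mk₀ (S.f ≫ h')) rfl := by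
    rw [← hx₁, ← hfac]
  rw [h3, ← Ext.mk₀_comp_mk₀]
  have h4 := Ext.comp_assoc hS.extClass (Ext.mk₀ S.f) (Ext.mk₀ h') (add_zero 1) (zero_add 0)
    (show 1 + 0 + 0 = 1 from rfl)
  rw [← h4, hS.extClass_comp, Ext.zero_comp]

end Pool.Agent.H717.HE
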