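import Pool.Agent.Run7.h717.HE.ExtK

/-!
# The exceptional collection of type `D₄` whose Hom-Ext quiver is a commutative square
-/

set_option autoImplicit false

open CategoryTheory Limits Abelian

namespace Pool.Agent.H717.HE

variable {k : Type} [Field k]

lemma P_obj_zero (j : J4) (h : IsEmpty (j ⟶ vo)) (y : (P k j).obj vo) : y = 0 := P_elt_zero h y

/-- The modules of the collection satisfy the hypothesis of `ext_K`. -/
lemma X4_sur (i : Fin 4) (y : (X4 k i).obj vo) : ∃ (ya : (X4 k i).obj va) (yb : (X4 k i).obj vb),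
    ((X4 k i).map pao).hom ya + ((X4 k i).map pbo).hom yb = y := by
  fin_cases i
  · refine ⟨0, 0, ?_⟩
    have : y = 0 := P_elt_zero ⟨fun p => no_path (u := V4.c) (v := V4.o) (by decide) p⟩ y
    rw [this, map_zero, map_zero, add_zero]
  · obtain ⟨c, hc⟩ := P_elt pao (show (P k va).obj vo from y)
    refine ⟨c • gen va, 0, ?_⟩
    change ((P k va).map pao).hom (c • gen va) + ((P k va).map pbo).hom 0 = y
    rw [map_zero, add_zero, map_smul, map_gen]
    exact hc.symm
  · obtain ⟨c, hc⟩ := P_elt pbo (show (P k vb).obj vo from y)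
    refine ⟨0, c • gen vb, ?_⟩
    change ((P k vb).map pao).hom 0 + ((P k vb).map pbo).hom (c • gen vb) = y
    rw [map_zero, zero_add, map_smul, map_gen]
    exact hc.symm
  · refine ⟨y, 0, ?_⟩
    rw [map_zero, add_zero]
    rfl

/-- All extensions between the members vanish. -/
lemma ext_zero (i j : Fin 4) (x : Ext (X4 k i) (X4 k j) 1) : x = 0 := by
  fin_cases i
  · exact Ext.eq_zero_of_projective (P := P k vc) x
  · exact Ext.eq_zero_of_projective (P := P k va) x
  · exact Ext.eq_zero_of_projective (P := P k vb) x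
  · exact ext_K (X4 k j) (X4_sur j) x

theorem X4_exceptional : IsExceptionalCollection (X4 k) := by
  refine ⟨fun i => ⟨indecomposable_of_scalar (not_isZero i) (scalar i), ext_zero i i⟩,
    Fin.castOrderIso (by simp) |>.toEquiv, fun i j hij => ⟨hom_zero i j ?_, ext_zero i j⟩⟩
  simpa using hij

lemma hom_fd (i j : Fin 4) : FiniteDimensional k (X4 k i ⟶ X4 k j) := by
  have h1 : ∃ f : X4 k i ⟶ X4 k j, ∀ g : X4 k i ⟶ X4 k j, ∃ c : k, g = c • f := by
    by_cases h : j < i
    · exact ⟨0, fun g => ⟨0, by rw [hom_zero i j h g, smul_zero]⟩⟩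
    · by_cases h' : i = j
      · subst h'
        exact ⟨𝟙 _, scalar i⟩
      · fin_cases i <;> fin_cases j <;> first | (exact absurd rfl h') | (exact absurd (by decide) h) | skip
        · exact ⟨_, fun g => P_hom_eq pac (fun q => hom_sub _ _) g⟩
        · exact ⟨_, fun g => P_hom_eq pbc (fun q => hom_sub _ _) g⟩
        · exact ⟨_, fun g => P_K vc g⟩
        · exact ⟨0, fun g => ⟨0, by rw [hom_zero12 g, smul_zero]⟩⟩
        · exact ⟨_, fun g => P_K va g⟩
        · exact ⟨_, fun g => P_K vb g⟩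
  obtain ⟨f, hf⟩ := h1
  apply Module.Finite.of_surjective (LinearMap.toSpanSingleton k _ f)
  intro g
  obtain ⟨c, hc⟩ := hf g
  exact ⟨c, hc.symm⟩

lemma isRadical_of_ne {i j : Fin 4} (h : i ≠ j) (f : X4 k i ⟶ X4 k j) : IsRadical f := by
  by_cases h' : i < j
  · exact isRadical_of_zero f (fun g => hom_zero j i h' g)
  · have h2 : j < i := lt_of_le_of_ne (not_lt.1 h') (Ne.symm h)
    rw [hom_zero i j h2 f]
    intro g
    rw [zero_comp, sub_zero]
    infer_instance

theorem X4_nonempty : Nonempty (Arrows k (X4 k)) := by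
  apply Arrows.nonempty
  · intro i j d
    obtain ⟨d, hd⟩ := d
    interval_cases d
    · have := hom_fd (k := k) i j
      exact Module.Finite.equiv (Ext.linearEquiv₀ (R := k)).symm
    · have : Subsingleton (Ext (X4 k i) (X4 k j) 1) :=
        ⟨fun x y => by rw [ext_zero i j x, ext_zero i j y]⟩
      change Module.Finite k (Ext (X4 k i) (X4 k j) 1)
      infer_instance
  · intro i j
    by_cases h : i = j
    · subst h
      refine ⟨⊥, ?_⟩
      ext x
      constructor
      · rintro (rfl : x = 0)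
        refine ⟨0, ?_, (Ext.mk₀_zero _ _).symm⟩
        intro g
        rw [zero_comp, sub_zero]
        infer_instance
      · rintro ⟨f, hf, rfl⟩
        rw [eq_zero_of_isRadical (not_isZero i) (scalar i) f hf, Ext.mk₀_zero]
        rfl
    · refine ⟨⊤, ?_⟩
      ext x
      constructor
      · intro _
        obtain ⟨f, rfl⟩ := (Ext.mk₀_bijective _ _).2 x
        exact ⟨f, isRadical_of_ne h f, rfl⟩
      · intro _
        trivial

/-- There are no compositions of radical morphisms along the four sides of the square. -/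
lemma no_comp (i j : Fin 4) (h : (i = 0 ∧ j = 1) ∨ (i = 0 ∧ j = 2) ∨ (i = 1 ∧ j = 3) ∨
    (i = 2 ∧ j = 3)) (l : Fin 4) (f : X4 k i ⟶ X4 k l) (g : X4 k l ⟶ X4 k j)
    (hf : IsRadical f) (hg : IsRadical g) : f ≫ g = 0 := by
  by_cases h1 : l < i
  · rw [hom_zero i l h1 f, zero_comp]
  by_cases h2 : j < l
  · rw [hom_zero l j h2 g, comp_zero]
  by_cases h3 : l = i
  · subst h3
    rw [eq_zero_of_isRadical (not_isZero l) (scalar l) f hf, zero_comp]
  by_cases h4 : l = j
  · subst h4
    rw [eq_zero_of_isRadical (not_isZero l) (scalar l) g hg, comp_zero]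
  have h5 : i < l := lt_of_le_of_ne (not_lt.1 h1) (Ne.symm h3)
  have h6 : l < j := lt_of_le_of_ne (not_lt.1 h2) h4
  rcases h with ⟨rfl, rfl⟩ | ⟨rfl, rfl⟩ | ⟨rfl, rfl⟩ | ⟨rfl, rfl⟩
  · fin_cases l <;> first | (exact absurd h5 (by decide)) | (exact absurd h6 (by decide))
  · fin_cases l
    · exact absurd h5 (by decide)
    · change f ≫ (g : X4 k 1 ⟶ X4 k 2) = 0
      rw [hom_zero12 g, comp_zero]
    · exact absurd h6 (by decide)
    · exact absurd h6 (by decide)
  · fin_cases l
    · exact absurd h5 (by decide)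
    · exact absurd h5 (by decide)
    · change (f : X4 k 1 ⟶ X4 k 2) ≫ g = 0
      rw [hom_zero12 f, zero_comp]
    · exact absurd h6 (by decide)
  · fin_cases l <;> first | (exact absurd h5 (by decide)) | (exact absurd h6 (by decide))

/-- The composition `P c → P i → K`. -/
lemma comp_eq (i : J4) (p : i ⟶ vc) : toP (bas p) ≫ toK (k := k) i = toK vc := by
  apply P_ext
  change ((toK i).app vc).hom (((toP (bas p)).app vc).hom (gen vc)) = _
  rw [toP_gen, toK_bas, toK_gen]

lemma toK_ne (i : J4) : toK (k := k) i ≠ 0 := by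
  intro h
  have h1 := toK_gen (k := k) i
  rw [h] at h1
  exact zero_ne_one (α := k) h1

lemma comp_smul_eq (i : J4) (p : i ⟶ vc) (r s : k) (f : P k vc ⟶ P k i) (g : P k i ⟶ K k)
    (hr : f = r • toP (bas p)) (hs : g = s • toK i) : f ≫ g = (r * s) • toK vc := by
  rw [hr, hs, Linear.smul_comp, Linear.comp_smul, comp_eq, smul_smul]

theorem X4_not_monomial (H : Arrows k (X4 k)) : ¬ H.IsMonomial := by
  have hne1 : (toP (bas pac) : P k vc ⟶ P k va) ≠ 0 := by
    intro h
    apply toK_ne (k := k) vc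
    rw [← comp_eq va pac, h, zero_comp]
  have hne2 : (toP (bas pbc) : P k vc ⟶ P k vb) ≠ 0 := by
    intro h
    apply toK_ne (k := k) vc
    rw [← comp_eq vb pbc, h, zero_comp]
  obtain ⟨a, f, hf, ha⟩ := H.exists_arrow (i := 0) (j := 1)
    (fun l f g => no_comp 0 1 (by decide) l f g)
    (show X4 k 0 ⟶ X4 k 1 from toP (bas pac)) (isRadical_of_ne (by decide) _) hne1
  obtain ⟨a', f', hf', ha'⟩ := H.exists_arrow (i := 0) (j := 2)
    (fun l f g => no_comp 0 2 (by decide) l f g)
    (show X4 k 0 ⟶ X4 k 2 from toP (bas pbc)) (isRadical_of_ne (by decide) _) hne2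
  obtain ⟨b, g, hg, hb⟩ := H.exists_arrow (i := 1) (j := 3)
    (fun l f g => no_comp 1 3 (by decide) l f g)
    (show X4 k 1 ⟶ X4 k 3 from toK va) (isRadical_of_ne (by decide) _) (toK_ne va)
  obtain ⟨b', g', hg', hb'⟩ := H.exists_arrow (i := 2) (j := 3)
    (fun l f g => no_comp 2 3 (by decide) l f g)
    (show X4 k 2 ⟶ X4 k 3 from toK vb) (isRadical_of_ne (by decide) _) (toK_ne vb)
  obtain ⟨r, hr⟩ := P_hom_eq pac (fun q => hom_sub _ _) f
  obtain ⟨r', hr'⟩ := P_hom_eq pbc (fun q => hom_sub _ _) f'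
  obtain ⟨s, hs⟩ := P_K va g
  obtain ⟨s', hs'⟩ := P_K vb g'
  have hr0 : r ≠ 0 := by
    rintro rfl
    exact hf (hr.trans (zero_smul k (toP (bas pac) : P k vc ⟶ P k va)))
  have hr0' : r' ≠ 0 := by
    rintro rfl
    exact hf' (hr'.trans (zero_smul k (toP (bas pbc) : P k vc ⟶ P k vb)))
  have hs0 : s ≠ 0 := by
    rintro rfl
    exact hg (hs.trans (zero_smul k (toK va : P k va ⟶ K k)))
  have hs0' : s' ≠ 0 := by
    rintro rfl
    exact hg' (hs'.trans (zero_smul k (toK vb : P k vb ⟶ K k)))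
  have e1 : f ≫ g = (r * s) • (show X4 k 0 ⟶ X4 k 3 from toK vc) :=
    comp_smul_eq va pac r s f g hr hs
  have e2 : f' ≫ g' = (r' * s') • (show X4 k 0 ⟶ X4 k 3 from toK vc) :=
    comp_smul_eq vb pbc r' s' f' g' hr' hs'
  have hne : (show X4 k 0 ⟶ X4 k 3 from toK vc) ≠ 0 := toK_ne vc
  refine H.not_isMonomial (show (1 : Fin 4) ≠ 2 by decide) a b a' b' f g f' g' ha hb ha' hb' ?_ ?_
  · rw [e2]
    exact smul_ne_zero (mul_ne_zero hr0' hs0') hne
  · refine ⟨(r' * s') * (r * s)⁻¹, ?_⟩
    rw [e1, e2, smul_smul, mul_assoc, inv_mul_cancel₀ (mul_ne_zero hr0 hs0), mul_one]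

lemma X4_fd (i : Fin 4) (v : J4) : FiniteDimensional k ((X4 k i).obj v) := by
  have key : ∀ j : J4, FiniteDimensional k ((P k j).obj v) := by
    intro j
    have : Subsingleton (j ⟶ v) := ⟨hom_sub⟩
    have : Finite (j ⟶ v) := inferInstance
    change Module.Finite k ((j ⟶ v) →₀ k)
    infer_instance
  fin_cases i
  · exact key vc
  · exact key va
  · exact key vb
  · change Module.Finite k k
    infer_instance

end Pool.Agent.H717.HE
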