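import Pool.Agent.Run7.h717.HE.Abs

set_option autoImplicit false

open CategoryTheory Limits Abelian

namespace Pool.Agent.H717.HE

section Proj
variable (k : Type) [Field k] {J : Type} [Category.{0} J]

/-- The projective functor `P i`, the linearisation of `Hom(i, -)`. -/
noncomputable def P (i : J) : J ⥤ ModuleCat.{0} k :=
  coyoneda.obj (Opposite.op i) ⋙ ModuleCat.free k

variable {k}

/-- The generator of `P i`. -/
noncomputable def gen (i : J) : ((P k i).obj i : ModuleCat k) :=
  (Finsupp.single (𝟙 i) (1 : k) : (i ⟶ i) →₀ k)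

/-- The basis elements of `P i`. -/
noncomputable def bas {i j : J} (p : i ⟶ j) : ((P k i).obj j : ModuleCat k) :=
  (Finsupp.single p (1 : k) : (i ⟶ j) →₀ k)

lemma map_gen {i j : J} (p : i ⟶ j) : ((P k i).map p).hom (gen i) = bas p := by
  change Finsupp.lmapDomain k k _ (Finsupp.single (𝟙 i) (1 : k)) = Finsupp.single p (1 : k)
  rw [Finsupp.lmapDomain_apply, Finsupp.mapDomain_single]
  congr 1
  exact Category.id_comp p

lemma map_bas {i j l : J} (p : i ⟶ j) (q : j ⟶ l) :
    ((P k i).map q).hom (bas p) = bas (p ≫ q) := by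
  change Finsupp.lmapDomain k k _ (Finsupp.single p (1 : k)) = Finsupp.single (p ≫ q) (1 : k)
  rw [Finsupp.lmapDomain_apply, Finsupp.mapDomain_single]
  rfl

lemma P_obj_ext {i v : J} {M : ModuleCat.{0} k} {f g : (P k i).obj v ⟶ M}
    (h : ∀ p : i ⟶ v, f.hom (bas p) = g.hom (bas p)) : f = g := by
  apply ModuleCat.hom_ext
  have : ∀ (φ ψ : ((i ⟶ v) →₀ k) →ₗ[k] M), (∀ p, φ (Finsupp.single p 1) =
      ψ (Finsupp.single p 1)) → φ = ψ := by
    intro φ ψ h
    apply Finsupp.lhom_ext
    intro a b
    have h1 : (Finsupp.single a b : (i ⟶ v) →₀ k) = b • Finsupp.single a 1 := by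
      rw [Finsupp.smul_single, smul_eq_mul, mul_one]
    rw [h1, map_smul, map_smul, h]
  exact this _ _ h

/-- The morphism from `P i` given by an element. -/
noncomputable def toP {i : J} {Y : J ⥤ ModuleCat.{0} k} (y : Y.obj i) : P k i ⟶ Y where
  app v := ModuleCat.ofHom (Finsupp.linearCombination k (fun p : i ⟶ v => (Y.map p).hom y))
  naturality v w q := by
    apply P_obj_ext
    intro p
    change (Finsupp.linearCombination k (fun p : i ⟶ w => (Y.map p).hom y))
      (((P k i).map q).hom (bas p)) = (Y.map q).hom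
      ((Finsupp.linearCombination k (fun p : i ⟶ v => (Y.map p).hom y)) (Finsupp.single p 1))
    rw [map_bas]
    change (Finsupp.linearCombination k (fun p : i ⟶ w => (Y.map p).hom y))
      (Finsupp.single (p ≫ q) 1) = _
    rw [Finsupp.linearCombination_single, Finsupp.linearCombination_single, one_smul, one_smul,
      Functor.map_comp]
    rfl

lemma toP_bas {i : J} {Y : J ⥤ ModuleCat.{0} k} (y : Y.obj i) {j : J} (p : i ⟶ j) :
    ((toP y).app j).hom (bas p) = (Y.map p).hom y := by
  change (Finsupp.linearCombination k (fun p : i ⟶ j => (Y.map p).hom y))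
    (Finsupp.single p 1) = _
  rw [Finsupp.linearCombination_single, one_smul]

lemma toP_gen {i : J} {Y : J ⥤ ModuleCat.{0} k} (y : Y.obj i) :
    ((toP y).app i).hom (gen i) = y := by
  have := toP_bas y (𝟙 i)
  rw [Y.map_id] at this
  exact this

lemma P_ext {i : J} {Y : J ⥤ ModuleCat.{0} k} {f g : P k i ⟶ Y}
    (h : (f.app i).hom (gen i) = (g.app i).hom (gen i)) : f = g := by
  apply NatTrans.ext
  funext v
  apply P_obj_ext
  intro p
  rw [← map_gen p]
  have hf := congrArg (fun e => e.hom (gen i)) (f.naturality p)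
  have hg := congrArg (fun e => e.hom (gen i)) (g.naturality p)
  change (f.app v).hom (((P k i).map p).hom (gen i)) = (Y.map p).hom ((f.app i).hom (gen i)) at hf
  change (g.app v).hom (((P k i).map p).hom (gen i)) = (Y.map p).hom ((g.app i).hom (gen i)) at hg
  rw [hf, hg, h]

instance P_projective (i : J) : Projective (P k i) where
  factors {E E'} f e he := by
    have h1 : Epi (e.app i) := inferInstance
    have h2 : Function.Surjective (e.app i).hom := (ModuleCat.epi_iff_surjective _).1 h1
    obtain ⟨x, hx⟩ := h2 ((f.app i).hom (gen i))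
    refine ⟨toP x, P_ext ?_⟩
    change (e.app i).hom (((toP x).app i).hom (gen i)) = _
    rw [toP_gen, hx]

/-- If there is no arrow from `j` to `i` then there are no morphisms from `P i` to `P j`. -/
lemma P_hom_zero {i j : J} (h : IsEmpty (j ⟶ i)) (f : P k i ⟶ P k j) : f = 0 := by
  apply P_ext
  have : Subsingleton ((j ⟶ i) →₀ k) := inferInstance
  exact this.elim _ _

/-- If there is one arrow `p` from `j` to `i` then the morphisms from `P i` to `P j` are the
multiples of one of them. -/
lemma P_hom_eq {i j : J} (p : j ⟶ i) (h : ∀ q : j ⟶ i, q = p) (f : P k i ⟶ P k j) :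
    ∃ c : k, f = c • toP (bas p) := by
  have h1 : ∃ c : k, (f.app i).hom (gen i) = c • bas p := by
    let x : (j ⟶ i) →₀ k := (f.app i).hom (gen i)
    refine ⟨x p, ?_⟩
    change x = x p • Finsupp.single p (1 : k)
    ext q
    rw [h q, Finsupp.smul_apply, Finsupp.single_eq_same, smul_eq_mul, mul_one]
  obtain ⟨c, hc⟩ := h1
  refine ⟨c, P_ext ?_⟩
  rw [hc]
  change _ = c • ((toP (bas p)).app i).hom (gen i)
  rw [toP_gen]

lemma bas_ne {i j : J} (p : i ⟶ j) : (bas p : ((P k i).obj j : ModuleCat k)) ≠ 0 := by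
  intro h
  have h1 : (Finsupp.single p (1 : k) : (i ⟶ j) →₀ k) = 0 := h
  rw [Finsupp.single_eq_zero] at h1
  exact one_ne_zero h1

lemma P_not_isZero (i : J) : ¬ IsZero (P k i) := by
  intro h
  have h1 := (IsZero.iff_id_eq_zero _).1 h
  have h2 := congrArg (fun f : P k i ⟶ P k i => (f.app i).hom (gen i)) h1
  exact bas_ne (𝟙 i) h2

lemma P_scalar (i : J) (h : ∀ q : i ⟶ i, q = 𝟙 i) (f : P k i ⟶ P k i) :
    ∃ c : k, f = c • 𝟙 (P k i) := by
  obtain ⟨c, hc⟩ := P_hom_eq (𝟙 i) h f
  refine ⟨c, ?_⟩
  rw [hc]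
  congr 1
  apply P_ext
  rw [toP_gen]
  rfl

end Proj

end Pool.Agent.H717.HE
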